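import Mathlib
import Pool.Agent.Lib.MP_a46439_co.LeafFinal

/-!
# The locating-total domination number of cubic graphs

For every finite cubic graph, connected or not, none of whose connected components is `K₄` or
`K₃,₃`, the locating-total domination number is at most half the order.
-/

set_option autoImplicit false

namespace Pool.Agent.Results.MP_a46439_co.CubicHalf

universe u

/-- `S` is a total dominating set: every vertex of `G` has a neighbour in `S`. -/
def IsTotalDominating {V : Type u} (G : SimpleGraph V) (S : Set V) : Prop :=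
  ∀ v : V, (G.neighborSet v ∩ S).Nonempty

/-- `S` is a locating-total dominating set: it is a total dominating set and distinct vertices
outside `S` have distinct neighbourhoods in `S`. -/
def IsLocatingTotalDominating {V : Type u} (G : SimpleGraph V) (S : Set V) : Prop :=
  IsTotalDominating G S ∧
    ∀ x y : V, x ∉ S → y ∉ S → x ≠ y → G.neighborSet x ∩ S ≠ G.neighborSet y ∩ S

/-- The locating-total domination number: the minimum size of a locating-total dominating set. -/
noncomputable def locatingTotalDominationNumber {V : Type u} (G : SimpleGraph V) : ℕ :=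
  sInf {k : ℕ | ∃ S : Set V, IsLocatingTotalDominating G S ∧ S.ncard = k}

/-- `G` is cubic: every vertex has exactly three neighbours. -/
def IsCubic {V : Type u} (G : SimpleGraph V) : Prop := ∀ v : V, (G.neighborSet v).ncard = 3

/-- The connected case. -/
theorem conn {V : Type u} [Fintype V] (G : SimpleGraph V) (hconn : G.Connected) (hreg : IsCubic G)
    (h4 : IsEmpty (G ≃g (⊤ : SimpleGraph (Fin 4))))
    (h33 : IsEmpty (G ≃g completeBipartiteGraph (Fin 3) (Fin 3))) :
    ∃ S : Set V, IsLocatingTotalDominating G S ∧ 2 * S.ncard ≤ Fintype.card V := by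
  classical
  set H : SimpleGraph (Fin (Fintype.card V)) := G.overFin rfl with hH
  let φ : G ≃g H := G.overFinIso rfl
  have hdeg : ∀ v, Pool.Agent.LTD.E H {v} Finset.univ = 3 := by
    intro v
    have h2 : Pool.Agent.LTD.E H {v} Finset.univ = (Finset.univ.filter fun w => H.Adj v w).card := by
      rw [Finset.card_filter]; unfold Pool.Agent.LTD.E; rw [Finset.sum_singleton]
    rw [h2, ← hreg (φ.symm v), ← Set.ncard_coe_finset]
    have h3 : (G.neighborSet (φ.symm v)) = φ.symm '' (H.neighborSet v) := by
      ext w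
      simp only [SimpleGraph.mem_neighborSet, Set.mem_image]
      constructor
      · intro hw
        refine ⟨φ w, ?_, by simp⟩
        rw [← φ.symm.map_adj_iff]
        simpa using hw
      · rintro ⟨x, hx, rfl⟩
        exact φ.symm.map_adj_iff.2 hx
    rw [h3, Set.ncard_image_of_injective _ φ.symm.injective]
    congr 1
    ext w
    simp
  have hc : H.Connected := (SimpleGraph.Iso.connected_iff φ).1 hconn
  obtain ⟨S, hS1, hS2, hS3⟩ := Pool.Agent.LTD.ltd_cubic H hc hdeg
    ⟨fun e => h4.false (φ.trans e)⟩ ⟨fun e => h33.false (φ.trans e)⟩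
  refine ⟨φ ⁻¹' (S : Set (Fin (Fintype.card V))), ⟨?_, ?_⟩, ?_⟩
  · intro v
    obtain ⟨w, hw, hvw⟩ := hS1 (φ v)
    refine ⟨φ.symm w, ?_, ?_⟩
    · rw [SimpleGraph.mem_neighborSet, ← φ.map_adj_iff]
      simpa using hvw
    · simpa using hw
  · intro x y hx hy hxy heq
    obtain ⟨w, hw, hn⟩ := hS2 (φ x) (φ y) (by simpa using hx) (by simpa using hy)
      (fun h => hxy (φ.injective h))
    apply hn
    have h5 : ∀ v : V, H.Adj (φ v) w ↔ φ.symm w ∈ G.neighborSet v ∩ φ ⁻¹' (S : Set _) := by
      intro v
      rw [Set.mem_inter_iff, SimpleGraph.mem_neighborSet, ← φ.map_adj_iff]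
      simp [hw]
    rw [h5, h5, heq]
  · rw [Set.ncard_preimage_of_injective_subset_range φ.injective
      (fun w _ => ⟨φ.symm w, by simp⟩), Set.ncard_coe_finset]
    simpa using hS3

/-- **Theorem.** Let `G` be a finite cubic graph, connected or not, such that no connected
component of `G` is isomorphic to `K₄` or to `K₃,₃`. Then `G` has a locating-total dominating set,
and its locating-total domination number is at most half the number of its vertices. -/
theorem result {V : Type u} [Fintype V] (G : SimpleGraph V) (hreg : IsCubic G)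
    (h4 : ∀ C : G.ConnectedComponent, IsEmpty (C.toSimpleGraph ≃g (⊤ : SimpleGraph (Fin 4))))
    (h33 : ∀ C : G.ConnectedComponent,
      IsEmpty (C.toSimpleGraph ≃g completeBipartiteGraph (Fin 3) (Fin 3))) :
    (∃ S : Set V, IsLocatingTotalDominating G S) ∧
      2 * locatingTotalDominationNumber G ≤ Fintype.card V := by
  classical
  have key : ∀ C : G.ConnectedComponent, ∃ S : Set C,
      IsLocatingTotalDominating C.toSimpleGraph S ∧ 2 * S.ncard ≤ Fintype.card C := by
    intro C
    refine conn _ C.connected_toSimpleGraph ?_ (h4 C) (h33 C)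
    rintro ⟨v, hv⟩
    rw [← hreg v, ← Set.ncard_image_of_injective _ (Subtype.val_injective (p := (· ∈ C)))]
    congr 1
    ext w
    simp only [Set.mem_image, SimpleGraph.mem_neighborSet, Subtype.exists, exists_and_right,
      exists_eq_right]
    constructor
    · rintro ⟨hw, h⟩
      exact (C.toSimpleGraph_adj hv hw).1 h
    · intro h
      have hw : w ∈ C := C.mem_supp_of_adj_mem_supp hv h
      exact ⟨hw, (C.toSimpleGraph_adj hv hw).2 h⟩
  choose S hS hcard using key
  have hmem : ∀ {C : G.ConnectedComponent} {v : V} (hv : v ∈ C),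
      v ∈ (⋃ C, Subtype.val '' (S C)) ↔ (⟨v, hv⟩ : C) ∈ S C := by
    intro C v hv
    rw [Set.mem_iUnion]
    constructor
    · rintro ⟨C', ⟨w, hw'⟩, hw, rfl⟩
      have : C' = C := SimpleGraph.ConnectedComponent.eq_of_common_vertex hw' hv
      subst this
      exact hw
    · intro h
      exact ⟨C, ⟨v, hv⟩, h, rfl⟩
  set T : Set V := ⋃ C, Subtype.val '' (S C) with hT
  have hTD : IsTotalDominating G T := by
    intro v
    have hv : v ∈ G.connectedComponentMk v := rfl
    obtain ⟨⟨w, hw⟩, hw1, hw2⟩ := (hS _).1 ⟨v, hv⟩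
    exact ⟨w, (SimpleGraph.ConnectedComponent.toSimpleGraph_adj _ hv hw).1 hw1, (hmem hw).2 hw2⟩
  have hLTD : IsLocatingTotalDominating G T := by
    refine ⟨hTD, fun x y hx hy hxy heq => ?_⟩
    have hxC : x ∈ G.connectedComponentMk x := rfl
    by_cases hyC : y ∈ G.connectedComponentMk x
    · refine (hS (G.connectedComponentMk x)).2 ⟨x, hxC⟩ ⟨y, hyC⟩ (fun h => hx ((hmem hxC).2 h))
        (fun h => hy ((hmem hyC).2 h)) (fun h => hxy (congrArg Subtype.val h)) ?_
      ext ⟨w, hw⟩
      simp only [Set.mem_inter_iff, SimpleGraph.mem_neighborSet]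
      have h1 : w ∈ G.neighborSet x ∩ T ↔ w ∈ G.neighborSet y ∩ T := by rw [heq]
      rw [Set.mem_inter_iff, Set.mem_inter_iff, hmem hw] at h1
      rw [SimpleGraph.ConnectedComponent.toSimpleGraph_adj _ hxC hw,
        SimpleGraph.ConnectedComponent.toSimpleGraph_adj _ hyC hw]
      exact h1
    · obtain ⟨w, hw1, hw2⟩ := hTD x
      have h1 : w ∈ G.neighborSet y ∩ T := by rw [← heq]; exact ⟨hw1, hw2⟩
      have h2 : w ∈ G.connectedComponentMk x :=
        SimpleGraph.ConnectedComponent.mem_supp_of_adj_mem_supp _ hxC hw1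
      exact hyC (SimpleGraph.ConnectedComponent.mem_supp_of_adj_mem_supp _ h2 (SimpleGraph.Adj.symm h1.1))
  refine ⟨⟨T, hLTD⟩, ?_⟩
  have h1 : locatingTotalDominationNumber G ≤ T.ncard := Nat.sInf_le ⟨T, hLTD, rfl⟩
  have hfin : Finite G.ConnectedComponent := inferInstance
  have : Fintype G.ConnectedComponent := Fintype.ofFinite _
  have h2 : T.ncard ≤ ∑ C : G.ConnectedComponent, (S C).ncard := by
    rw [hT]
    refine (Set.ncard_iUnion_le_of_fintype _).trans (Finset.sum_le_sum fun C _ => ?_)
    exact Set.ncard_image_le (Set.toFinite _)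
  have h3 : ∑ C : G.ConnectedComponent, Fintype.card C = Fintype.card V := by
    rw [← Fintype.card_sigma]
    refine Fintype.card_congr
      { toFun := fun p => p.2.1
        invFun := fun v => ⟨G.connectedComponentMk v, ⟨v, rfl⟩⟩
        left_inv := ?_
        right_inv := fun v => rfl }
    rintro ⟨C, ⟨v, hv⟩⟩
    have : G.connectedComponentMk v = C := hv
    subst this
    rfl
  calc 2 * locatingTotalDominationNumber G ≤ 2 * T.ncard := Nat.mul_le_mul_left 2 h1
    _ ≤ 2 * ∑ C : G.ConnectedComponent, (S C).ncard := Nat.mul_le_mul_left 2 h2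
    _ = ∑ C : G.ConnectedComponent, 2 * (S C).ncard := by rw [Finset.mul_sum]
    _ ≤ ∑ C : G.ConnectedComponent, Fintype.card C := Finset.sum_le_sum fun C _ => hcard C
    _ = Fintype.card V := h3

end Pool.Agent.Results.MP_a46439_co.CubicHalf
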